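import Pool.Agent.MP_491dd2_co.Digits

set_option autoImplicit false

namespace Pool.Agent.MP_491dd2_co

open Finset

lemma two_mul_pow_le (n : ℕ) (hn : 0 < n) : 2 * n ^ n ≤ (n + 1) ^ n := by
  have hn' : (0 : ℝ) < n := by exact_mod_cast hn
  have h := one_add_mul_le_pow (a := (1 / n : ℝ)) (by
    have : (0 : ℝ) ≤ 1 / n := by positivity
    linarith) n
  have h2 : (1 : ℝ) + n * (1 / n) = 2 := by field_simp; norm_num
  rw [h2] at h
  have h3 : (1 + 1 / n : ℝ) ^ n * (n : ℝ) ^ n = ((n : ℝ) + 1) ^ n := by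
    rw [← mul_pow]
    congr 1
    field_simp
  have h4 : (2 : ℝ) * (n : ℝ) ^ n ≤ ((n : ℝ) + 1) ^ n := by
    rw [← h3]
    exact mul_le_mul_of_nonneg_right h (by positivity)
  exact_mod_cast h4

lemma pow_le_three_mul (n : ℕ) (hn : 0 < n) : (n + 1) ^ n ≤ 3 * n ^ n := by
  have hn' : (0 : ℝ) < n := by exact_mod_cast hn
  have h : (1 / n + 1 : ℝ) ≤ Real.exp (1 / n) := Real.add_one_le_exp _
  have h2 : (1 / n + 1 : ℝ) ^ n ≤ Real.exp (1 / n) ^ n :=
    pow_le_pow_left₀ (by positivity) h n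
  rw [← Real.exp_nat_mul] at h2
  have h5 : (n : ℝ) * (1 / n) = 1 := by field_simp
  rw [h5] at h2
  have h6 : Real.exp 1 ≤ 3 := by
    have := Real.exp_one_lt_d9
    linarith
  have h3 : (1 / n + 1 : ℝ) ^ n * (n : ℝ) ^ n = ((n : ℝ) + 1) ^ n := by
    rw [← mul_pow]
    congr 1
    field_simp
    ring
  have h4 : ((n : ℝ) + 1) ^ n ≤ (3 : ℝ) * (n : ℝ) ^ n := by
    rw [← h3]
    exact mul_le_mul_of_nonneg_right (h2.trans h6) (by positivity)
  exact_mod_cast h4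

end Pool.Agent.MP_491dd2_co
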