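import Mathlib

set_option autoImplicit false

namespace Pool.Agent.MP_491dd2_co

open Finset

/-- the number with digit vector `f` in base `W` -/
def dval {n W : ℕ} (f : Fin n → Fin W) : ℕ := ((finFunctionFinEquiv f : Fin (W ^ n)) : ℕ)

lemma dval_eq {n W : ℕ} (f : Fin n → Fin W) : dval f = ∑ i, (f i : ℕ) * W ^ (i : ℕ) := by
  unfold dval
  exact finFunctionFinEquiv_apply f

lemma dval_lt {n W : ℕ} (f : Fin n → Fin W) : dval f < W ^ n := by
  unfold dval
  exact (finFunctionFinEquiv f).isLt

lemma dval_inj {n W : ℕ} : Function.Injective (dval : (Fin n → Fin W) → ℕ) := by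
  intro f g h
  unfold dval at h
  exact finFunctionFinEquiv.injective (Fin.val_injective h)

/-- changing one digit -/
lemma dval_update {n W : ℕ} (f : Fin n → Fin W) (k : Fin n) (a : Fin W) :
    dval (Function.update f k a) + (f k : ℕ) * W ^ (k : ℕ) = dval f + (a : ℕ) * W ^ (k : ℕ) := by
  rw [dval_eq, dval_eq]
  rw [← Finset.add_sum_erase univ _ (Finset.mem_univ k)]
  rw [← Finset.add_sum_erase (f := fun i => (f i : ℕ) * W ^ (i : ℕ)) univ (Finset.mem_univ k)]
  have : ∑ x ∈ univ.erase k, ((Function.update f k a) x : ℕ) * W ^ (x : ℕ)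
      = ∑ x ∈ univ.erase k, (f x : ℕ) * W ^ (x : ℕ) := by
    apply Finset.sum_congr rfl
    intro x hx
    rw [Function.update_of_ne (Finset.ne_of_mem_erase hx)]
  rw [this, Function.update_self]
  ring

/-- vectors with all digits nonzero -/
def Yg (n : ℕ) : Finset (Fin n → Fin (n + 1)) := univ.filter (fun f => ∀ i, f i ≠ 0)

/-- vectors with some digit zero -/
def Ag (n : ℕ) : Finset (Fin n → Fin (n + 1)) := univ.filter (fun f => ∃ i, f i = 0)

lemma mem_Yg {n : ℕ} {f : Fin n → Fin (n + 1)} : f ∈ Yg n ↔ ∀ i, f i ≠ 0 := by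
  simp [Yg]

lemma mem_Ag {n : ℕ} {f : Fin n → Fin (n + 1)} : f ∈ Ag n ↔ ∃ i, f i = 0 := by
  simp [Ag]

lemma card_Yg (n : ℕ) : (Yg n).card = n ^ n := by
  have : Yg n = Fintype.piFinset (fun _ : Fin n => (univ : Finset (Fin (n + 1))).erase 0) := by
    ext f
    simp [mem_Yg, Fintype.mem_piFinset]
  rw [this, Fintype.card_piFinset]
  simp

lemma card_Yg_add_card_Ag (n : ℕ) : (Yg n).card + (Ag n).card = (n + 1) ^ n := by
  have h1 : Ag n = univ.filter (fun f => ¬ ∀ i, f i ≠ 0) := by
    ext f
    simp [mem_Ag]
  rw [h1, Yg, Finset.card_filter_add_card_filter_not]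
  simp

lemma card_digit_eq {n : ℕ} (k : Fin n) (j : Fin (n + 1)) :
    ((univ : Finset (Fin n → Fin (n + 1))).filter (fun f => f k = j)).card = (n + 1) ^ (n - 1) := by
  have : (univ : Finset (Fin n → Fin (n + 1))).filter (fun f => f k = j)
      = Fintype.piFinset (fun i : Fin n => if i = k then {j} else (univ : Finset (Fin (n + 1)))) := by
    ext f
    simp only [mem_filter, mem_univ, true_and, Fintype.mem_piFinset]
    constructor
    · intro h i
      by_cases hi : i = k
      · subst hi; simp [h]
      · simp [hi]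
    · intro h
      have := h k
      simpa using this
  rw [this, Fintype.card_piFinset]
  rw [← Finset.mul_prod_erase univ _ (Finset.mem_univ k)]
  have h2 : ∏ x ∈ univ.erase k, (if x = k then ({j} : Finset (Fin (n + 1))) else univ).card
      = ∏ x ∈ (univ : Finset (Fin n)).erase k, (n + 1) := by
    apply Finset.prod_congr rfl
    intro x hx
    rw [if_neg (Finset.ne_of_mem_erase hx)]
    simp
  rw [h2]
  simp

/-- the index of the digit to be zeroed -/
def kidx {n : ℕ} (hn : 0 < n) (g : Fin n → Fin (n + 1)) : Fin n :=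
  ⟨(∑ i, (g i : ℕ)) % n, Nat.mod_lt _ hn⟩

/-- the matching map -/
def phi {n : ℕ} (hn : 0 < n) (g : Fin n → Fin (n + 1)) : Fin n → Fin (n + 1) :=
  Function.update g (kidx hn g) 0

lemma phi_mem_Ag {n : ℕ} (hn : 0 < n) (g : Fin n → Fin (n + 1)) : phi hn g ∈ Ag n := by
  rw [mem_Ag]
  exact ⟨kidx hn g, by simp [phi]⟩

lemma phi_dval {n : ℕ} (hn : 0 < n) (g : Fin n → Fin (n + 1)) :
    dval (phi hn g) + (g (kidx hn g) : ℕ) * (n + 1) ^ (kidx hn g : ℕ) = dval g := by
  have := dval_update g (kidx hn g) 0
  simpa [phi] using this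

lemma phi_injOn {n : ℕ} (hn : 0 < n) : Set.InjOn (phi hn) (Yg n : Set (Fin n → Fin (n + 1))) := by
  intro g hg g' hg' h
  rw [Finset.mem_coe, mem_Yg] at hg hg'
  have hk : kidx hn g = kidx hn g' := by
    by_contra hne
    have h1 := congrFun h (kidx hn g)
    unfold phi at h1
    rw [Function.update_self, Function.update_of_ne hne] at h1
    exact hg' _ h1.symm
  have hne : ∀ i, i ≠ kidx hn g → g i = g' i := by
    intro i hi
    have h1 := congrFun h i
    unfold phi at h1
    rw [Function.update_of_ne hi, Function.update_of_ne (by rw [← hk]; exact hi)] at h1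
    exact h1
  have hsum : ∑ i ∈ univ.erase (kidx hn g), (g i : ℕ) = ∑ i ∈ univ.erase (kidx hn g), (g' i : ℕ) := by
    apply Finset.sum_congr rfl
    intro i hi
    rw [hne i (Finset.ne_of_mem_erase hi)]
  have hmod : (∑ i, (g i : ℕ)) % n = (∑ i, (g' i : ℕ)) % n := by
    have := congrArg Fin.val hk
    simpa [kidx] using this
  rw [← Finset.add_sum_erase univ (fun i => (g i : ℕ)) (Finset.mem_univ (kidx hn g)),
    ← Finset.add_sum_erase univ (fun i => (g' i : ℕ)) (Finset.mem_univ (kidx hn g)), hsum] at hmod
  have hmod2 : (g (kidx hn g) : ℕ) ≡ (g' (kidx hn g) : ℕ) [MOD n] :=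
    Nat.ModEq.add_right_cancel' _ hmod
  have e1 : (g (kidx hn g) : ℕ) ≠ 0 := by
    intro h0
    exact hg _ (Fin.ext h0)
  have e2 : (g' (kidx hn g) : ℕ) ≠ 0 := by
    intro h0
    exact hg' _ (Fin.ext h0)
  have l1 : (g (kidx hn g) : ℕ) < n + 1 := (g (kidx hn g)).isLt
  have l2 : (g' (kidx hn g) : ℕ) < n + 1 := (g' (kidx hn g)).isLt
  have heq : (g (kidx hn g) : ℕ) = (g' (kidx hn g) : ℕ) := by
    have hmod3 : (g (kidx hn g) : ℕ) - 1 ≡ (g' (kidx hn g) : ℕ) - 1 [MOD n] := by
      apply Nat.ModEq.add_right_cancel' 1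
      rw [Nat.sub_add_cancel (by omega), Nat.sub_add_cancel (by omega)]
      exact hmod2
    have := Nat.ModEq.eq_of_lt_of_lt hmod3 (by omega) (by omega)
    omega
  funext i
  by_cases hi : i = kidx hn g
  · rw [hi]; exact Fin.ext heq
  · exact hne i hi

/-- the crucial digit lemma: `y` with all digits nonzero, `y = x + j W^k` with `x` having a zero digit -/
lemma shift_digit {n : ℕ} (f g : Fin n → Fin (n + 1)) (hf : f ∈ Ag n) (hg : g ∈ Yg n)
    (k : Fin n) (j : Fin (n + 1))
    (h : dval f + (j : ℕ) * (n + 1) ^ (k : ℕ) = dval g) :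
    g k = j ∨ ∃ k' : Fin n, (k' : ℕ) = k + 1 ∧ (g k' : ℕ) = 1 := by
  rw [mem_Ag] at hf
  rw [mem_Yg] at hg
  obtain ⟨i, hi⟩ := hf
  by_cases hjk : (j : ℕ) ≤ (g k : ℕ)
  · left
    set a : Fin (n + 1) := ⟨(g k : ℕ) - j, by have := (g k).isLt; omega⟩ with ha
    have h1 := dval_update g k a
    have h2 : dval (Function.update g k a) = dval f := by
      have : (g k : ℕ) * (n + 1) ^ (k : ℕ) = (a : ℕ) * (n + 1) ^ (k : ℕ) + (j : ℕ) * (n + 1) ^ (k : ℕ) := by
        rw [← add_mul]
        congr 1
        simp only [ha]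
        omega
      omega
    have h3 := dval_inj h2
    by_cases hik : i = k
    · subst hik
      have h4 := congrFun h3 i
      rw [Function.update_self, hi] at h4
      have h5 := congrArg Fin.val h4
      simp only [ha, Fin.val_zero] at h5
      apply Fin.ext
      omega
    · have h4 := congrFun h3 i
      rw [Function.update_of_ne hik, hi] at h4
      exact absurd h4 (hg i)
  · right
    push Not at hjk
    by_cases hk : (k : ℕ) + 1 < n
    · refine ⟨⟨k + 1, hk⟩, rfl, ?_⟩
      set k' : Fin n := ⟨k + 1, hk⟩ with hk'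
      have hgk' : (g k' : ℕ) ≠ 0 := fun h0 => hg _ (Fin.ext h0)
      have hgk : (g k : ℕ) ≠ 0 := fun h0 => hg _ (Fin.ext h0)
      have hjlt := j.isLt
      have hgk'lt := (g k').isLt
      set a : Fin (n + 1) := ⟨(g k : ℕ) + (n + 1) - j, by omega⟩ with ha
      set b : Fin (n + 1) := ⟨(g k' : ℕ) - 1, by omega⟩ with hb
      have hne : k' ≠ k := by
        intro h0
        have := congrArg Fin.val h0
        simp [hk'] at this
      have h1 := dval_update g k a
      have h1' := dval_update (Function.update g k a) k' b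
      rw [Function.update_of_ne hne] at h1'
      have h2 : dval (Function.update (Function.update g k a) k' b) = dval f := by
        have e1 : (a : ℕ) * (n + 1) ^ (k : ℕ) + (j : ℕ) * (n + 1) ^ (k : ℕ)
            = (g k : ℕ) * (n + 1) ^ (k : ℕ) + (n + 1) ^ (k' : ℕ) := by
          have : (n + 1) ^ (k' : ℕ) = (n + 1) * (n + 1) ^ (k : ℕ) := by
            simp only [hk']; ring
          rw [this, ← add_mul, ← add_mul]
          congr 1
          simp only [ha]
          omega
        have e2 : (g k' : ℕ) * (n + 1) ^ (k' : ℕ) = (b : ℕ) * (n + 1) ^ (k' : ℕ) + (n + 1) ^ (k' : ℕ) := by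
          have : (g k' : ℕ) = (b : ℕ) + 1 := by simp only [hb]; omega
          rw [this]; ring
        omega
      have h3 := dval_inj h2
      by_cases hik' : i = k'
      · have h4 := congrFun h3 i
        rw [hi, hik', Function.update_self] at h4
        have h5 := congrArg Fin.val h4
        simp only [hb, Fin.val_zero] at h5
        omega
      · have h4 := congrFun h3 i
        rw [Function.update_of_ne hik', hi] at h4
        by_cases hik : i = k
        · subst hik
          rw [Function.update_self] at h4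
          have h5 := congrArg Fin.val h4
          simp only [ha, Fin.val_zero] at h5
          omega
        · rw [Function.update_of_ne hik] at h4
          exact absurd h4 (hg i)
    · -- top digit: impossible by size
      exfalso
      have hkn : (k : ℕ) + 1 = n := by have := k.isLt; omega
      -- set digit k of g to zero: value < W^k, since it is divisible argument
      have h1 := dval_update g k 0
      simp only [Fin.val_zero, zero_mul, add_zero] at h1
      have h2 : dval (Function.update g k 0) < (n + 1) ^ (k : ℕ) := by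
        rw [dval_eq]
        have h3 : ∑ i, ((Function.update g k 0) i : ℕ) * (n + 1) ^ (i : ℕ)
            = ∑ i ∈ univ.erase k, ((Function.update g k 0) i : ℕ) * (n + 1) ^ (i : ℕ) := by
          rw [← Finset.add_sum_erase univ _ (Finset.mem_univ k)]
          simp
        rw [h3]
        have h4 : ∀ i ∈ (univ : Finset (Fin n)).erase k,
            ((Function.update g k 0) i : ℕ) * (n + 1) ^ (i : ℕ) ≤ n * (n + 1) ^ (i : ℕ) := by
          intro i _
          apply Nat.mul_le_mul_right
          have := ((Function.update g k 0) i).isLt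
          omega
        refine lt_of_le_of_lt (Finset.sum_le_sum h4) ?_
        have h5 : ∑ i ∈ (univ : Finset (Fin n)).erase k, n * (n + 1) ^ (i : ℕ)
            = ∑ i ∈ Finset.range (k : ℕ), n * (n + 1) ^ i := by
          apply Finset.sum_bij (fun (i : Fin n) _ => (i : ℕ))
          · intro i hi
            rw [Finset.mem_range]
            have := Finset.ne_of_mem_erase hi
            have h6 : (i : ℕ) ≠ k := fun h => this (Fin.ext h)
            have := i.isLt
            omega
          · intro i _ j _ h
            exact Fin.ext h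
          · intro b hb
            rw [Finset.mem_range] at hb
            refine ⟨⟨b, by omega⟩, ?_, rfl⟩
            rw [Finset.mem_erase]
            refine ⟨?_, Finset.mem_univ _⟩
            intro h
            have := congrArg Fin.val h
            simp at this
            omega
          · intro i _
            rfl
        rw [h5, ← Finset.mul_sum]
        have h7 : n * ∑ i ∈ Finset.range (k : ℕ), (n + 1) ^ i + 1 = (n + 1) ^ (k : ℕ) := by
          have h8 : ((n : ℤ) + 1 - 1) * ∑ i ∈ Finset.range (k : ℕ), ((n : ℤ) + 1) ^ i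
              = ((n : ℤ) + 1) ^ (k : ℕ) - 1 := mul_geom_sum _ _
          have h9 : (n : ℤ) * ∑ i ∈ Finset.range (k : ℕ), ((n : ℤ) + 1) ^ i + 1
              = ((n : ℤ) + 1) ^ (k : ℕ) := by
            have : ((n : ℤ) + 1 - 1) = n := by ring
            rw [this] at h8
            linarith
          exact_mod_cast h9
        omega
      have h3 : ((g k : ℕ) + 1) * (n + 1) ^ (k : ℕ) ≤ (j : ℕ) * (n + 1) ^ (k : ℕ) :=
        Nat.mul_le_mul_right _ hjk
      rw [add_mul, one_mul] at h3
      omega

end Pool.Agent.MP_491dd2_co
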