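import Pool.Agent.MP_491dd2_co.Counting

set_option autoImplicit false
open scoped Pointwise

namespace Pool.Agent.MP_491dd2_co

open Finset

/-- for each shift `b` in the special set or in the far interval, few elements of `Y` are hit -/
theorem counterexample (c : ℕ) : ∃ p : ℕ, p.Prime ∧ ∃ A B : Finset (ZMod p),
    A.card = B.card ∧ (A + B).card ≤ 8 * A.card ∧
    ∀ A' : Finset (ZMod p), A' ⊆ A → ∀ B' : Finset (ZMod p), B' ⊆ B →
      19 * A.card ≤ 20 * A'.card → B'.card ≤ c →
      20 * (A' + B').card < 19 * (A' + B).card := by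
  classical
  obtain ⟨n, hn⟩ : ∃ n : ℕ, n = 100 * (c + 1) := ⟨_, rfl⟩
  have hn0 : 0 < n := by omega
  obtain ⟨N, hN⟩ : ∃ N : ℕ, N = (n + 1) ^ n := ⟨_, rfl⟩
  have hNpos : 0 < N := by rw [hN]; positivity
  obtain ⟨p, hp, hpp⟩ := Nat.exists_infinite_primes (4 * N + 1)
  have := Fact.mk hpp
  have hcast : ∀ x y : ℕ, x < 4 * N → y < 4 * N → ((x : ZMod p) = (y : ZMod p)) → x = y := by
    intro x y hx hy h
    have h1 := (ZMod.natCast_eq_natCast_iff' x y p).1 h
    rwa [Nat.mod_eq_of_lt (by omega), Nat.mod_eq_of_lt (by omega)] at h1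
  set D : (Fin n → Fin (n + 1)) → ZMod p := fun f => ((dval f : ℕ) : ZMod p) with hD
  have hdlt : ∀ f : Fin n → Fin (n + 1), dval f < N := fun f => by rw [hN]; exact dval_lt f
  have hDinj : Function.Injective D := by
    intro f g h
    apply dval_inj
    apply hcast _ _ _ _ h
    · have := hdlt f; omega
    · have := hdlt g; omega
  set A : Finset (ZMod p) := (Ag n).image D with hA
  set Y : Finset (ZMod p) := (Yg n).image D with hY
  set T : Finset (Fin n × Fin (n + 1)) := univ with hT
  set sh : Fin n × Fin (n + 1) → ℕ := fun q => (q.2 : ℕ) * (n + 1) ^ (q.1 : ℕ) with hsh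
  have hshlt : ∀ q, sh q < N := by
    intro q
    have h1 : (q.2 : ℕ) < n + 1 := q.2.isLt
    have h2 : (q.1 : ℕ) + 1 ≤ n := q.1.isLt
    calc sh q = (q.2 : ℕ) * (n + 1) ^ (q.1 : ℕ) := rfl
      _ < (n + 1) * (n + 1) ^ (q.1 : ℕ) := by
          apply Nat.mul_lt_mul_of_pos_right h1 (by positivity)
      _ = (n + 1) ^ ((q.1 : ℕ) + 1) := by ring
      _ ≤ (n + 1) ^ n := Nat.pow_le_pow_right (by omega) h2
      _ = N := hN.symm
  set S : Finset (ZMod p) := T.image (fun q => ((sh q : ℕ) : ZMod p)) with hS
  set I : Finset (ZMod p) := (Finset.Ico (2 * N) (3 * N)).image (Nat.cast : ℕ → ZMod p) with hI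
  have hcardA : A.card = (Ag n).card := Finset.card_image_of_injective _ hDinj
  have hcardY : Y.card = (Yg n).card := Finset.card_image_of_injective _ hDinj
  have hYc : (Yg n).card = n ^ n := card_Yg n
  have hsum : (Yg n).card + (Ag n).card = N := by rw [hN]; exact card_Yg_add_card_Ag n
  have h2le : 2 * n ^ n ≤ N := by rw [hN]; exact two_mul_pow_le n hn0
  have h3le : N ≤ 3 * n ^ n := by rw [hN]; exact pow_le_three_mul n hn0
  have hAlow : N ≤ 2 * A.card := by omega
  have hAhigh : A.card ≤ N := by omega
  have hcardI : I.card = N := by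
    rw [hI, Finset.card_image_of_injOn, Nat.card_Ico]
    · omega
    · intro x hx y hy h
      simp only [Finset.coe_Ico, Set.mem_Ico] at hx hy
      exact hcast x y (by omega) (by omega) h
  have hScard : S.card ≤ n * (n + 1) := by
    calc S.card ≤ T.card := Finset.card_image_le
      _ = n * (n + 1) := by simp [hT]
  have hSA : S.card ≤ A.card := by
    have h1 : (n + 1) ^ 3 ≤ N := by rw [hN]; exact Nat.pow_le_pow_right (by omega) (by omega)
    have h2 : 2 * (n * (n + 1)) ≤ (n + 1) ^ 3 := by nlinarith
    omega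
  have hAI : A.card ≤ (S ∪ I).card := by
    have := Finset.card_le_card (Finset.subset_union_right (s₁ := S) (s₂ := I))
    omega
  obtain ⟨B, hSB, hBSI, hBcard⟩ :=
    Finset.exists_subsuperset_card_eq (Finset.subset_union_left (s₁ := S) (s₂ := I)) hSA hAI
  -- the sumset is small
  have hAB : A + B ⊆ (Finset.range (4 * N)).image (Nat.cast : ℕ → ZMod p) := by
    intro z hz
    obtain ⟨a, ha, b, hb, rfl⟩ := Finset.mem_add.1 hz
    obtain ⟨f, _, rfl⟩ := Finset.mem_image.1 ha
    have hb' := hBSI hb
    rw [Finset.mem_union] at hb'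
    have hf := hdlt f
    rcases hb' with hb' | hb'
    · obtain ⟨q, _, rfl⟩ := Finset.mem_image.1 hb'
      rw [Finset.mem_image]
      refine ⟨dval f + sh q, ?_, ?_⟩
      · rw [Finset.mem_range]; have := hshlt q; omega
      · push_cast; rfl
    · obtain ⟨x, hx, rfl⟩ := Finset.mem_image.1 hb'
      rw [Finset.mem_Ico] at hx
      rw [Finset.mem_image]
      refine ⟨dval f + x, ?_, ?_⟩
      · rw [Finset.mem_range]; omega
      · push_cast; rfl
  have hABcard : (A + B).card ≤ 4 * N := by
    calc (A + B).card ≤ _ := Finset.card_le_card hAB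
      _ ≤ (Finset.range (4 * N)).card := Finset.card_image_le
      _ = 4 * N := Finset.card_range _
  -- few elements of Y are hit by one shift
  have hhit : ∀ b ∈ B, (Y.filter (fun y => ∃ a ∈ A, a + b = y)).card ≤ 2 * (n + 1) ^ (n - 1) := by
    intro b hb
    have hb' := hBSI hb
    rw [Finset.mem_union] at hb'
    rcases hb' with hb' | hb'
    · obtain ⟨q, _, rfl⟩ := Finset.mem_image.1 hb'
      have hsub : Y.filter (fun y => ∃ a ∈ A, a + ((sh q : ℕ) : ZMod p) = y) ⊆
          ((univ.filter (fun f : Fin n → Fin (n + 1) => f q.1 = q.2)).image D) ∪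
          (univ.filter (fun f : Fin n → Fin (n + 1) =>
            ∃ k' : Fin n, (k' : ℕ) = q.1 + 1 ∧ (f k' : ℕ) = 1)).image D := by
        intro y hy
        rw [Finset.mem_filter] at hy
        obtain ⟨hy, a, ha, hay⟩ := hy
        obtain ⟨g, hg, rfl⟩ := Finset.mem_image.1 hy
        obtain ⟨f, hf, rfl⟩ := Finset.mem_image.1 ha
        have hval : dval f + (q.2 : ℕ) * (n + 1) ^ (q.1 : ℕ) = dval g := by
          apply hcast
          · have := hdlt f; have := hshlt q; simp only [hsh] at this; omega
          · have := hdlt g; omega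
          · have h1 : ((dval g : ℕ) : ZMod p) = D g := rfl
            rw [h1, ← hay]; simp only [hsh]; push_cast; rfl
        have := shift_digit f g hf hg q.1 q.2 hval
        rw [Finset.mem_union]
        rcases this with h | h
        · left
          exact Finset.mem_image_of_mem _ (by simp [h])
        · right
          apply Finset.mem_image_of_mem
          rw [Finset.mem_filter]
          exact ⟨Finset.mem_univ _, h⟩
      have hc1 : ((univ.filter (fun f : Fin n → Fin (n + 1) => f q.1 = q.2)).image D).card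
          ≤ (n + 1) ^ (n - 1) := by
        rw [← card_digit_eq q.1 q.2]
        exact Finset.card_image_le
      have hc2 : ((univ.filter (fun f : Fin n → Fin (n + 1) =>
            ∃ k' : Fin n, (k' : ℕ) = q.1 + 1 ∧ (f k' : ℕ) = 1)).image D).card
          ≤ (n + 1) ^ (n - 1) := by
        refine Finset.card_image_le.trans ?_
        by_cases hk : (q.1 : ℕ) + 1 < n
        · have h1 : (1 : ℕ) < n + 1 := by omega
          rw [← card_digit_eq (⟨q.1 + 1, hk⟩ : Fin n) (⟨1, h1⟩ : Fin (n + 1))]
          apply Finset.card_le_card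
          intro f hf
          rw [Finset.mem_filter] at hf ⊢
          obtain ⟨_, k', hk', hf'⟩ := hf
          refine ⟨Finset.mem_univ _, ?_⟩
          have : k' = ⟨q.1 + 1, hk⟩ := Fin.ext hk'
          rw [← this]
          exact Fin.ext hf'
        · have : (univ.filter (fun f : Fin n → Fin (n + 1) =>
            ∃ k' : Fin n, (k' : ℕ) = q.1 + 1 ∧ (f k' : ℕ) = 1)) = ∅ := by
            rw [Finset.filter_eq_empty_iff]
            rintro f _ ⟨k', hk', _⟩
            have := k'.isLt
            omega
          rw [this]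
          simp
      calc _ ≤ _ := Finset.card_le_card hsub
        _ ≤ _ := Finset.card_union_le _ _
        _ ≤ (n + 1) ^ (n - 1) + (n + 1) ^ (n - 1) := Nat.add_le_add hc1 hc2
        _ = 2 * (n + 1) ^ (n - 1) := by ring
    · obtain ⟨x, hx, rfl⟩ := Finset.mem_image.1 hb'
      rw [Finset.mem_Ico] at hx
      have : Y.filter (fun y => ∃ a ∈ A, a + ((x : ℕ) : ZMod p) = y) = ∅ := by
        rw [Finset.filter_eq_empty_iff]
        rintro y hy ⟨a, ha, hay⟩
        obtain ⟨g, hg, rfl⟩ := Finset.mem_image.1 hy
        obtain ⟨f, hf, rfl⟩ := Finset.mem_image.1 ha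
        have hf' := hdlt f
        have hg' := hdlt g
        have hval : dval f + x = dval g := by
          apply hcast
          · omega
          · omega
          · have h1 : ((dval g : ℕ) : ZMod p) = D g := rfl
            rw [h1, ← hay]; push_cast; rfl
        omega
      rw [this]
      simp
  refine ⟨p, hpp, A, B, hBcard.symm, by omega, ?_⟩
  intro A' hA' B' hB' hA'card hB'card
  -- lower bound on Y ∩ (A' + B)
  have hlow : Y.card ≤ (Y.filter (fun y => y ∈ A' + B)).card + (A \ A').card := by
    have h1 : Y.card = (Y.filter (fun y => y ∈ A' + B)).card + (Y.filter (fun y => ¬ y ∈ A' + B)).card :=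
      (Finset.card_filter_add_card_filter_not _).symm
    have h2 : (Y.filter (fun y => ¬ y ∈ A' + B)).card ≤ (A \ A').card := by
      have h3 : Y.filter (fun y => ¬ y ∈ A' + B) ⊆
          ((Yg n).filter (fun g => D (phi hn0 g) ∈ A \ A')).image D := by
        intro y hy
        rw [Finset.mem_filter] at hy
        obtain ⟨hy, hy2⟩ := hy
        obtain ⟨g, hg, rfl⟩ := Finset.mem_image.1 hy
        apply Finset.mem_image_of_mem
        rw [Finset.mem_filter, Finset.mem_sdiff]
        refine ⟨hg, Finset.mem_image_of_mem _ (phi_mem_Ag hn0 g), ?_⟩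
        intro h4
        apply hy2
        have h5 : D g = D (phi hn0 g) + ((sh (kidx hn0 g, g (kidx hn0 g)) : ℕ) : ZMod p) := by
          simp only [hD, hsh]
          rw [← Nat.cast_add, phi_dval]
        rw [h5]
        apply Finset.add_mem_add h4
        apply hSB
        exact Finset.mem_image_of_mem _ (Finset.mem_univ _)
      have h6 : ((Yg n).filter (fun g => D (phi hn0 g) ∈ A \ A')).card ≤ (A \ A').card := by
        apply Finset.card_le_card_of_injOn (fun g => D (phi hn0 g))
        · intro g hg
          rw [Finset.mem_coe, Finset.mem_filter] at hg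
          exact hg.2
        · intro g hg g' hg' h
          rw [Finset.mem_coe, Finset.mem_filter] at hg hg'
          exact phi_injOn hn0 hg.1 hg'.1 (hDinj h)
      calc _ ≤ _ := Finset.card_le_card h3
        _ ≤ _ := Finset.card_image_le
        _ ≤ _ := h6
    omega
  -- upper bound on Y ∩ (A' + B')
  have hup : (Y.filter (fun y => y ∈ A' + B')).card ≤ c * (2 * (n + 1) ^ (n - 1)) := by
    have h1 : Y.filter (fun y => y ∈ A' + B') ⊆
        B'.biUnion (fun b => Y.filter (fun y => ∃ a ∈ A, a + b = y)) := by
      intro y hy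
      rw [Finset.mem_filter] at hy
      obtain ⟨hy, hy2⟩ := hy
      obtain ⟨a, ha, b, hb, hab⟩ := Finset.mem_add.1 hy2
      rw [Finset.mem_biUnion]
      refine ⟨b, hb, ?_⟩
      rw [Finset.mem_filter]
      exact ⟨hy, a, hA' ha, hab⟩
    calc _ ≤ _ := Finset.card_le_card h1
      _ ≤ B'.card * (2 * (n + 1) ^ (n - 1)) :=
          Finset.card_biUnion_le_card_mul _ _ _ (fun b hb => hhit b (hB' hb))
      _ ≤ c * (2 * (n + 1) ^ (n - 1)) := Nat.mul_le_mul_right _ hB'card
  -- comparison
  have hcomp : (Y.filter (fun y => y ∈ A' + B)).card + (A' + B').card ≤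
      (A' + B).card + (Y.filter (fun y => y ∈ A' + B')).card := by
    have h1 : Y.filter (fun y => y ∈ A' + B) ∪ (A' + B') ⊆ A' + B := by
      apply Finset.union_subset
      · intro y hy
        exact (Finset.mem_filter.1 hy).2
      · exact Finset.add_subset_add_left hB'
    have h2 : Y.filter (fun y => y ∈ A' + B) ∩ (A' + B') ⊆ Y.filter (fun y => y ∈ A' + B') := by
      intro y hy
      rw [Finset.mem_inter, Finset.mem_filter] at hy
      rw [Finset.mem_filter]
      exact ⟨hy.1.1, hy.2⟩
    have h3 := Finset.card_union_add_card_inter (Y.filter (fun y => y ∈ A' + B)) (A' + B')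
    have h4 := Finset.card_le_card h1
    have h5 := Finset.card_le_card h2
    omega
  have hA'B : (A' + B).card ≤ 4 * N :=
    (Finset.card_le_card (Finset.add_subset_add_right hA')).trans hABcard
  have hdiff : (A \ A').card + A'.card = A.card := Finset.card_sdiff_add_card_eq_card hA'
  have hpow : (n + 1) ^ (n - 1) * (n + 1) = N := by
    rw [hN, ← pow_succ, Nat.sub_add_cancel (by omega)]
  have hkey : 100 * (c + 1) * (n + 1) ^ (n - 1) ≤ N := by
    rw [← hpow, mul_comm]
    apply Nat.mul_le_mul_left
    omega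
  have hkey2 : 100 * (c * (2 * (n + 1) ^ (n - 1))) ≤ 2 * N := by
    nlinarith [Nat.zero_le ((n + 1) ^ (n - 1))]
  -- N/3 ≤ |Y|
  omega

end Pool.Agent.MP_491dd2_co
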